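import Pool.Agent.Q95.SF.WeiB
import Pool.Agent.Q103.SF.Stm1

/-! # (SF-W1) The Weierstrass parametrization of a cubic by entire functions -/

set_option autoImplicit false

namespace Pool.Agent.Q95.SF

theorem wei : Pool.Agent.Q103.SF.S_wei :=
  fun a b _ => wei0 a b

end Pool.Agent.Q95.SF
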