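import Mathlib

/-! # The Poincare function of the duplication map: local and global existence -/

set_option autoImplicit false

open Filter Topology Set Metric

namespace Pool.Agent.Q95.SF

/-- the quartic form -/
def qf (a b s r : ℂ) : ℂ := s * r ^ 3 + a * s ^ 3 * r + b * s ^ 4

def F1 (a b s r : ℂ) : ℂ := 4 * qf a b s r

def F2 (a b s r : ℂ) : ℂ := (r ^ 2 - a * s ^ 2) ^ 2 - 8 * b * s ^ 3 * r

/-- the lift of the duplication map, centred at its fixed point -/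
def Ph (a b : ℂ) (v : ℂ × ℂ) : ℂ × ℂ := (F1 a b v.1 (1 + v.2), F2 a b v.1 (1 + v.2) - 1)

/-- its nonlinear part -/
def Qh (a b : ℂ) (v : ℂ × ℂ) : ℂ × ℂ := Ph a b v - (4 : ℂ) • v

theorem Ph_cd (a b : ℂ) : ContDiff ℂ 2 (Ph a b) := by
  unfold Ph F1 F2 qf
  fun_prop

theorem Qh_cd (a b : ℂ) : ContDiff ℂ 2 (Qh a b) := by
  have := Ph_cd a b
  unfold Qh
  fun_prop

theorem Qh_zero (a b : ℂ) : Qh a b 0 = 0 := by
  simp [Qh, Ph, F1, F2, qf]

/-- second order vanishing of the nonlinear part, along lines through zero -/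
theorem Qh_fderiv_zero (a b : ℂ) : fderiv ℂ (Qh a b) 0 = 0 := by
  have h1 : HasFDerivAt (Ph a b) ((4 : ℂ) • ContinuousLinearMap.id ℂ (ℂ × ℂ)) 0 := by
    have hf : HasFDerivAt (fun v : ℂ × ℂ => v.1) (ContinuousLinearMap.fst ℂ ℂ ℂ) 0 :=
      hasFDerivAt_fst
    have hs : HasFDerivAt (fun v : ℂ × ℂ => 1 + v.2) (ContinuousLinearMap.snd ℂ ℂ ℂ) 0 :=
      hasFDerivAt_snd.const_add 1
    have h1 : HasFDerivAt (fun v : ℂ × ℂ => F1 a b v.1 (1 + v.2))
        ((4 : ℂ) • ContinuousLinearMap.fst ℂ ℂ ℂ) 0 := by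
      have h := (((hf.mul (hs.pow 3)).add (((hf.pow 3).const_mul a).mul hs)).add
        ((hf.pow 4).const_mul b)).const_mul 4
      refine h.congr_fderiv ?_
      ext <;> simp
    have h2 : HasFDerivAt (fun v : ℂ × ℂ => F2 a b v.1 (1 + v.2) - 1)
        ((4 : ℂ) • ContinuousLinearMap.snd ℂ ℂ ℂ) 0 := by
      have h := ((((hs.pow 2).sub ((hf.pow 2).const_mul a)).pow 2).sub
        (((hf.pow 3).const_mul (8 * b)).mul hs)).sub_const 1
      refine h.congr_fderiv ?_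
      ext <;> simp <;> norm_num
    refine (h1.prodMk h2).congr_fderiv ?_
    ext <;> simp
  have h2 : HasFDerivAt (Qh a b) (0 : (ℂ × ℂ) →L[ℂ] (ℂ × ℂ)) 0 := by
    have h0 : HasFDerivAt (fun v : ℂ × ℂ => (4 : ℂ) • v)
        ((4 : ℂ) • ContinuousLinearMap.id ℂ (ℂ × ℂ)) 0 :=
      (hasFDerivAt_id (𝕜 := ℂ) (0 : ℂ × ℂ)).const_smul (4 : ℂ)
    have h := h1.sub h0
    rw [sub_self] at h
    exact h
  exact h2.fderiv

/-- the Lipschitz bound of the nonlinear part -/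
theorem Qh_lip (a b : ℂ) : ∃ K δ : ℝ, 0 < K ∧ 0 < δ ∧ ∀ (m : ℝ), m < δ → ∀ v v' : ℂ × ℂ,
    ‖v‖ ≤ m → ‖v'‖ ≤ m → ‖Qh a b v - Qh a b v'‖ ≤ K * m * ‖v - v'‖ := by
  have h1 : ContDiffAt ℂ 1 (fderiv ℂ (Qh a b)) 0 :=
    ((Qh_cd a b).fderiv_right (m := 1) (by norm_num)).contDiffAt
  obtain ⟨K, t, ht, hK⟩ := h1.exists_lipschitzOnWith
  obtain ⟨δ, hδ, hδt⟩ := Metric.mem_nhds_iff.1 ht
  refine ⟨K + 1, δ, by positivity, hδ, fun m hm v v' hv hv' => ?_⟩
  have hm0 : 0 ≤ m := (norm_nonneg v).trans hv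
  have h2 : ∀ x ∈ closedBall (0 : ℂ × ℂ) m, ‖fderiv ℂ (Qh a b) x‖ ≤ (K + 1) * m := by
    intro x hx
    have hx' : ‖x‖ ≤ m := by simpa using hx
    have h3 := hK.dist_le_mul x (hδt (by simpa using hx'.trans_lt hm)) 0 (hδt (by simpa using hδ))
    rw [dist_eq_norm, dist_eq_norm, Qh_fderiv_zero, sub_zero, sub_zero] at h3
    calc ‖fderiv ℂ (Qh a b) x‖ ≤ K * ‖x‖ := h3
      _ ≤ (K + 1) * m := by
          have hK0 : (0 : ℝ) ≤ K := K.2
          nlinarith [norm_nonneg x]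
  exact (convex_closedBall (0 : ℂ × ℂ) m).norm_image_sub_le_of_norm_fderiv_le
    (fun x _ => (Qh_cd a b).differentiable (by norm_num) x) h2 (by simpa using hv')
    (by simpa using hv)

/-- the approximations -/
noncomputable def gs (a b : ℂ) : ℕ → ℂ → ℂ × ℂ
  | 0 => fun w => (w, 0)
  | n + 1 => fun w => Ph a b (gs a b n (w / 4))

theorem gs_diff (a b : ℂ) (n : ℕ) : Differentiable ℂ (gs a b n) := by
  induction n with
  | zero =>
    unfold gs
    fun_prop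
  | succ n ih =>
    have h1 : Differentiable ℂ (Ph a b) := (Ph_cd a b).differentiable (by norm_num)
    have h2 : Differentiable ℂ (fun w : ℂ => w / 4) := by fun_prop
    exact h1.comp (ih.comp h2)

theorem norm_zero' (w : ℂ) : ‖((w, 0) : ℂ × ℂ)‖ = ‖w‖ := by
  rw [Prod.norm_def]
  simp

/-- the estimates -/
theorem est (a b : ℂ) : ∃ K ρ : ℝ, 0 < K ∧ 0 < ρ ∧ ρ ≤ 1 ∧ ∀ n : ℕ, ∀ w : ℂ, ‖w‖ ≤ ρ →
    ‖gs a b n w - gs a b 0 w‖ ≤ 2 * K * (1 - (1 / 2) ^ n) * ‖w‖ ^ 2 ∧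
    ‖gs a b (n + 1) w - gs a b n w‖ ≤ K * (1 / 2) ^ n * ‖w‖ ^ 2 := by
  obtain ⟨K, δ, hK, hδ, hQ⟩ := Qh_lip a b
  obtain ⟨ρ, hρ⟩ : ∃ ρ : ℝ, ρ = min (min 1 δ) (1 / (2 * K)) := ⟨_, rfl⟩
  have hρ0 : 0 < ρ := by rw [hρ]; exact lt_min (lt_min one_pos hδ) (by positivity)
  have hρ1 : ρ ≤ 1 := by rw [hρ]; exact (min_le_left _ _).trans (min_le_left _ _)
  have hρδ : ρ ≤ δ := by rw [hρ]; exact (min_le_left _ _).trans (min_le_right _ _)
  have hρK : 2 * K * ρ ≤ 1 := by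
    have : ρ ≤ 1 / (2 * K) := by rw [hρ]; exact min_le_right _ _
    rw [le_div_iff₀ (by positivity)] at this
    linarith
  refine ⟨K, ρ, hK, hρ0, hρ1, fun n => ?_⟩
  -- the size from the first estimate
  have size : ∀ n : ℕ, (∀ w : ℂ, ‖w‖ ≤ ρ →
      ‖gs a b n w - gs a b 0 w‖ ≤ 2 * K * (1 - (1 / 2) ^ n) * ‖w‖ ^ 2) →
      ∀ w : ℂ, ‖w‖ ≤ ρ → ‖gs a b n w‖ ≤ 2 * ‖w‖ := by
    intro n h w hw
    have h1 := h w hw
    have h2 : ‖gs a b 0 w‖ = ‖w‖ := norm_zero' w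
    have h3 : ‖gs a b n w‖ ≤ ‖gs a b n w - gs a b 0 w‖ + ‖gs a b 0 w‖ := by
      have := norm_add_le (gs a b n w - gs a b 0 w) (gs a b 0 w)
      rwa [sub_add_cancel] at this
    have h4 : (0 : ℝ) ≤ (1 / 2) ^ n := by positivity
    have h5 : 2 * K * (1 - (1 / 2) ^ n) * ‖w‖ ^ 2 ≤ 2 * K * 1 * (ρ * ‖w‖) := by
      have hw0 := norm_nonneg w
      have h6 : ‖w‖ ^ 2 ≤ ρ * ‖w‖ := by nlinarith
      have h7 : (0 : ℝ) ≤ 1 - (1 / 2) ^ n := by
        have : ((1 : ℝ) / 2) ^ n ≤ 1 := pow_le_one₀ (by norm_num) (by norm_num)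
        linarith
      gcongr
      linarith
    have h6 : 2 * K * 1 * (ρ * ‖w‖) ≤ ‖w‖ := by
      have := mul_le_mul_of_nonneg_right hρK (norm_nonneg w)
      linarith
    linarith
  induction n with
  | zero =>
    intro w hw
    refine ⟨by simp, ?_⟩
    have h0 : gs a b 1 w - gs a b 0 w = Qh a b (w / 4, 0) - Qh a b 0 := by
      rw [Qh_zero, sub_zero]
      change Ph a b (w / 4, 0) - (w, 0) = Ph a b (w / 4, 0) - (4 : ℂ) • (w / 4, (0 : ℂ))
      congr 1
      ext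
      · simp
        ring
      · simp
    have hn : ‖((w / 4, 0) : ℂ × ℂ)‖ = ‖w‖ / 4 := by
      rw [norm_zero', norm_div]
      norm_num
    have h1 := hQ (‖w‖ / 4) (by
      have := norm_nonneg w
      rcases this.eq_or_lt with h | h
      · rw [← h]; simpa using hδ
      · linarith) (w / 4, 0) 0 hn.le (by rw [norm_zero]; positivity)
    rw [h0]
    refine h1.trans ?_
    rw [sub_zero, hn, pow_zero]
    have := norm_nonneg w
    nlinarith [mul_nonneg hK.le (sq_nonneg ‖w‖)]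
  | succ n ih =>
    intro w hw
    have hp : (0 : ℝ) < (1 / 2) ^ n := by positivity
    have hfirst : ∀ w : ℂ, ‖w‖ ≤ ρ →
        ‖gs a b (n + 1) w - gs a b 0 w‖ ≤ 2 * K * (1 - (1 / 2) ^ (n + 1)) * ‖w‖ ^ 2 := by
      intro w hw
      obtain ⟨i1, i2⟩ := ih w hw
      have h3 : ‖gs a b (n + 1) w - gs a b 0 w‖ ≤
          ‖gs a b (n + 1) w - gs a b n w‖ + ‖gs a b n w - gs a b 0 w‖ := by
        have := norm_add_le (gs a b (n + 1) w - gs a b n w) (gs a b n w - gs a b 0 w)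
        rwa [sub_add_sub_cancel] at this
      have h4 : 2 * K * (1 - (1 / 2) ^ (n + 1)) * ‖w‖ ^ 2 =
          K * (1 / 2) ^ n * ‖w‖ ^ 2 + 2 * K * (1 - (1 / 2) ^ n) * ‖w‖ ^ 2 := by
        rw [pow_succ]
        ring
      rw [h4]
      linarith
    refine ⟨hfirst w hw, ?_⟩
    have hw4 : ‖w / 4‖ = ‖w‖ / 4 := by
      rw [norm_div]
      norm_num
    have hw4' : ‖w / 4‖ ≤ ρ := by
      rw [hw4]
      have := norm_nonneg w
      linarith
    have s1 := size n (fun w hw => (ih w hw).1) (w / 4) hw4'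
    have s2 := size (n + 1) hfirst (w / 4) hw4'
    have i2 := (ih (w / 4) hw4').2
    rw [hw4] at s1 s2 i2
    obtain ⟨u, hu⟩ : ∃ u, u = gs a b (n + 1) (w / 4) := ⟨_, rfl⟩
    obtain ⟨u', hu'⟩ : ∃ u', u' = gs a b n (w / 4) := ⟨_, rfl⟩
    rw [← hu, ← hu'] at i2
    rw [← hu'] at s1
    rw [← hu] at s2
    have e1 : gs a b (n + 1 + 1) w - gs a b (n + 1) w = Ph a b u - Ph a b u' := by
      rw [hu, hu']
      rfl
    have e2 : Ph a b u - Ph a b u' = (4 : ℂ) • (u - u') + (Qh a b u - Qh a b u') := by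
      unfold Qh
      rw [smul_sub]
      abel
    have hQ' : ‖Qh a b u - Qh a b u'‖ ≤ K * (‖w‖ / 2) * ‖u - u'‖ := by
      refine hQ (‖w‖ / 2) ?_ u u' (by linarith) (by linarith)
      have := norm_nonneg w
      rcases this.eq_or_lt with h | h
      · rw [← h]; simpa using hδ
      · linarith
    rw [e1, e2]
    have h3 : ‖(4 : ℂ) • (u - u') + (Qh a b u - Qh a b u')‖ ≤ 4 * ‖u - u'‖
        + K * (‖w‖ / 2) * ‖u - u'‖ := by
      refine (norm_add_le _ _).trans (add_le_add ?_ hQ')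
      rw [norm_smul]
      norm_num
    have h4 : K * (‖w‖ / 2) ≤ 4 := by
      have h5 : K * ‖w‖ ≤ K * ρ := mul_le_mul_of_nonneg_left hw hK.le
      linarith
    have h5 : 4 * ‖u - u'‖ + K * (‖w‖ / 2) * ‖u - u'‖ ≤ 8 * ‖u - u'‖ := by
      have := mul_le_mul_of_nonneg_right h4 (norm_nonneg (u - u'))
      linarith
    calc _ ≤ 8 * ‖u - u'‖ := h3.trans h5
      _ ≤ 8 * (K * (1 / 2) ^ n * (‖w‖ / 4) ^ 2) := by linarith
      _ = K * (1 / 2) ^ (n + 1) * ‖w‖ ^ 2 := by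
          rw [pow_succ]
          ring

/-- the Poincare function -/
theorem poincare (a b : ℂ) : ∃ al be : ℂ → ℂ, Differentiable ℂ al ∧ Differentiable ℂ be ∧
    al 0 = 0 ∧ be 0 = 1 ∧ deriv al 0 = 1 ∧ deriv be 0 = 0 ∧
    (∀ w, al (4 * w) = F1 a b (al w) (be w)) ∧ ∀ w, be (4 * w) = F2 a b (al w) (be w) := by
  obtain ⟨K, ρ, hK, hρ, hρ1, hest⟩ := est a b
  have hPc : Continuous (Ph a b) := (Ph_cd a b).continuous
  have hPd : Differentiable ℂ (Ph a b) := (Ph_cd a b).differentiable (by norm_num)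
  -- the local limit
  obtain ⟨G0, hG0⟩ : ∃ G0 : ℂ → ℂ × ℂ, G0 = fun w => gs a b 0 w
      + ∑' n, (gs a b (n + 1) w - gs a b n w) := ⟨_, rfl⟩
  have hsum : Summable fun n : ℕ => K * (1 / 2 : ℝ) ^ n :=
    (summable_geometric_of_lt_one (by norm_num) (by norm_num)).mul_left K
  have hbd : ∀ (n : ℕ) (w : ℂ), w ∈ ball (0 : ℂ) ρ →
      ‖gs a b (n + 1) w - gs a b n w‖ ≤ K * (1 / 2) ^ n := by
    intro n w hw
    have hw' : ‖w‖ < ρ := by simpa using hw
    refine (hest n w hw'.le).2.trans ?_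
    have h1 : ‖w‖ ^ 2 ≤ 1 := pow_le_one₀ (norm_nonneg w) (hw'.le.trans hρ1)
    have h2 : 0 ≤ K * (1 / 2 : ℝ) ^ n := by positivity
    nlinarith
  have hG0d : DifferentiableOn ℂ G0 (ball 0 ρ) := by
    rw [hG0]
    refine (gs_diff a b 0).differentiableOn.add ?_
    exact Complex.differentiableOn_tsum_of_summable_norm hsum
      (fun n => ((gs_diff a b (n + 1)).sub (gs_diff a b n)).differentiableOn) isOpen_ball hbd
  have hG0t : ∀ w ∈ ball (0 : ℂ) ρ, Tendsto (fun n => gs a b n w) atTop (𝓝 (G0 w)) := by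
    intro w hw
    have hs : Summable fun n => gs a b (n + 1) w - gs a b n w :=
      Summable.of_norm_bounded hsum fun n => hbd n w hw
    have h1 := hs.hasSum.tendsto_sum_nat
    have h2 : ∀ n, ∑ i ∈ Finset.range n, (gs a b (i + 1) w - gs a b i w) =
        gs a b n w - gs a b 0 w := fun n => Finset.sum_range_sub (fun i => gs a b i w) n
    simp only [h2] at h1
    have h3 := h1.const_add (gs a b 0 w)
    rw [hG0]
    refine h3.congr fun n => ?_
    abel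
  -- convergence everywhere
  have hall : ∀ k : ℕ, ∀ w : ℂ, ‖w‖ < 4 ^ k * ρ → ∃ l, Tendsto (fun n => gs a b n w) atTop (𝓝 l) := by
    intro k
    induction k with
    | zero =>
      intro w hw
      exact ⟨_, hG0t w (by simpa using hw)⟩
    | succ k ih =>
      intro w hw
      obtain ⟨l, hl⟩ := ih (w / 4) (by
        rw [norm_div]
        rw [pow_succ] at hw
        norm_num
        linarith)
      refine ⟨Ph a b l, (tendsto_add_atTop_iff_nat 1).1 ?_⟩
      exact (hPc.tendsto l).comp hl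
  have hex : ∀ w : ℂ, ∃ k : ℕ, ‖w‖ < 4 ^ k * ρ := by
    intro w
    obtain ⟨k, hk⟩ := pow_unbounded_of_one_lt (‖w‖ / ρ) (show (1 : ℝ) < 4 by norm_num)
    exact ⟨k, (div_lt_iff₀ hρ).1 hk⟩
  choose G hG using fun w => (hex w).elim fun k hk => hall k w hk
  have hfun : ∀ w, G w = Ph a b (G (w / 4)) := by
    intro w
    refine tendsto_nhds_unique ((tendsto_add_atTop_iff_nat 1).2 (hG w)) ?_
    exact (hPc.tendsto _).comp (hG (w / 4))
  have hGG : ∀ w ∈ ball (0 : ℂ) ρ, G w = G0 w := fun w hw =>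
    tendsto_nhds_unique (hG w) (hG0t w hw)
  have hdif : ∀ k : ℕ, DifferentiableOn ℂ G (ball 0 (4 ^ k * ρ)) := by
    intro k
    induction k with
    | zero =>
      rw [pow_zero, one_mul]
      exact hG0d.congr hGG
    | succ k ih =>
      have h1 : DifferentiableOn ℂ (fun w => G (w / 4)) (ball 0 (4 ^ (k + 1) * ρ)) := by
        refine ih.comp (by fun_prop) fun w hw => ?_
        have hw' : ‖w‖ < 4 ^ (k + 1) * ρ := by simpa using hw
        have : ‖w / 4‖ < 4 ^ k * ρ := by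
          rw [norm_div]
          rw [pow_succ] at hw'
          norm_num
          linarith
        simpa using this
      refine (hPd.comp_differentiableOn h1).congr fun w _ => ?_
      exact hfun w
  have hGd : Differentiable ℂ G := by
    intro w
    obtain ⟨k, hk⟩ := hex w
    exact (hdif k).differentiableAt (isOpen_ball.mem_nhds (by simpa using hk))
  -- the derivative at zero
  have hbig : ∀ w ∈ ball (0 : ℂ) ρ, ‖G w - (w, 0)‖ ≤ 2 * K * ‖w‖ ^ 2 := by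
    intro w hw
    have hw' : ‖w‖ < ρ := by simpa using hw
    have h1 : Tendsto (fun n => ‖gs a b n w - (w, 0)‖) atTop (𝓝 ‖G w - (w, 0)‖) :=
      ((hG w).sub_const _).norm
    refine le_of_tendsto h1 (Eventually.of_forall fun n => ?_)
    refine (hest n w hw'.le).1.trans ?_
    have h2 : (0 : ℝ) ≤ (1 / 2) ^ n := by positivity
    have h3 : 0 ≤ K * ‖w‖ ^ 2 := by positivity
    nlinarith
  have hG00 : G 0 = (0, 0) := by
    have := hbig 0 (by simpa using hρ)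
    rw [norm_zero, zero_pow two_ne_zero, mul_zero] at this
    exact sub_eq_zero.1 (norm_le_zero_iff.1 this)
  have hder : HasDerivAt G (1, 0) 0 := by
    have h1 : HasFDerivAt (fun w => G w - (w, 0)) (0 : ℂ →L[ℂ] ℂ × ℂ) 0 := by
      refine Asymptotics.IsBigO.hasFDerivAt (n := 2) ?_ one_lt_two
      refine Asymptotics.IsBigO.of_bound (2 * K) ?_
      filter_upwards [ball_mem_nhds (0 : ℂ) hρ] with w hw
      rw [sub_zero, Real.norm_of_nonneg (by positivity)]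
      exact hbig w hw
    have h2 : HasDerivAt (fun w => G w - (w, 0)) 0 0 := by
      have := h1.hasDerivAt
      simpa using this
    have h3 : HasDerivAt (fun w : ℂ => ((w, 0) : ℂ × ℂ)) (1, 0) 0 :=
      (hasDerivAt_id (0 : ℂ)).prodMk (hasDerivAt_const (0 : ℂ) (0 : ℂ))
    have h4 := h2.add h3
    rw [zero_add] at h4
    refine h4.congr_of_eventuallyEq (Eventually.of_forall fun w => ?_)
    simp
  have hd1 : HasDerivAt (fun w => (G w).1) 1 0 :=
    (hasFDerivAt_fst (𝕜 := ℂ) (p := G 0)).comp_hasDerivAt (0 : ℂ) hder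
  have hd2 : HasDerivAt (fun w => 1 + (G w).2) 0 0 := by
    have : HasDerivAt (fun w => (G w).2) 0 0 :=
      (hasFDerivAt_snd (𝕜 := ℂ) (p := G 0)).comp_hasDerivAt (0 : ℂ) hder
    exact this.const_add 1
  refine ⟨fun w => (G w).1, fun w => 1 + (G w).2, hGd.fst, hGd.snd.const_add 1, ?_, ?_, hd1.deriv,
    hd2.deriv, fun w => ?_, fun w => ?_⟩
  · simp only [hG00]
  · simp only [hG00, add_zero]
  · have h1 := hfun (4 * w)
    rw [mul_div_cancel_left₀ w (show (4 : ℂ) ≠ 0 by norm_num)] at h1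
    simp only [h1]
    rfl
  · have h1 := hfun (4 * w)
    rw [mul_div_cancel_left₀ w (show (4 : ℂ) ≠ 0 by norm_num)] at h1
    simp only [h1]
    change 1 + (F2 a b (G w).1 (1 + (G w).2) - 1) = _
    ring

end Pool.Agent.Q95.SF
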