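import Pool.Agent.Q95.SF.WeiA

/-! # The Weierstrass parametrization of a cubic by entire functions -/

set_option autoImplicit false

open Filter Topology

namespace Pool.Agent.Q95.SF

/-- the Jacobian of the duplication map -/
def Jf (a b s r : ℂ) : ℂ :=
  (4 * (r ^ 3 + 3 * a * s ^ 2 * r + 4 * b * s ^ 3)) *
      (4 * r * (r ^ 2 - a * s ^ 2) - 8 * b * s ^ 3)
    - (4 * (3 * s * r ^ 2 + a * s ^ 3)) *
      (-4 * a * s * (r ^ 2 - a * s ^ 2) - 24 * b * s ^ 2 * r)

theorem qf_F (a b s r : ℂ) :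
    64 * qf a b (F1 a b s r) (F2 a b s r) = (Jf a b s r) ^ 2 * qf a b s r := by
  simp only [F1, F2, qf, Jf]
  ring

theorem wron {al be : ℂ → ℂ} (a b : ℂ) (ha : Differentiable ℂ al) (hb : Differentiable ℂ be)
    (h1 : ∀ w, al (4 * w) = F1 a b (al w) (be w)) (h2 : ∀ w, be (4 * w) = F2 a b (al w) (be w))
    (w : ℂ) :
    16 * (deriv al (4 * w) * be (4 * w) - al (4 * w) * deriv be (4 * w))
      = Jf a b (al w) (be w) * (deriv al w * be w - al w * deriv be w) := by
  have h4 : HasDerivAt (fun z : ℂ => 4 * z) 4 w := by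
    simpa using (hasDerivAt_id w).const_mul (4 : ℂ)
  have A := (ha w).hasDerivAt
  have B := (hb w).hasDerivAt
  have e1 : HasDerivAt (fun z => al (4 * z)) (deriv al (4 * w) * 4) w :=
    HasDerivAt.comp w (ha (4 * w)).hasDerivAt h4
  have e2 : HasDerivAt (fun z => be (4 * z)) (deriv be (4 * w) * 4) w :=
    HasDerivAt.comp w (hb (4 * w)).hasDerivAt h4
  have e3 : HasDerivAt (fun z => al (4 * z))
      (4 * ((be w ^ 3 + 3 * a * al w ^ 2 * be w + 4 * b * al w ^ 3) * deriv al w
        + (3 * al w * be w ^ 2 + a * al w ^ 3) * deriv be w)) w := by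
    have h : (fun z => al (4 * z)) = fun z => F1 a b (al z) (be z) := funext h1
    rw [h]
    have h5 := (((A.mul (B.pow 3)).add (((A.pow 3).const_mul a).mul B)).add
      ((A.pow 4).const_mul b)).const_mul 4
    refine h5.congr_deriv ?_
    simp
    ring
  have e4 : HasDerivAt (fun z => be (4 * z))
      ((-4 * a * al w * (be w ^ 2 - a * al w ^ 2) - 24 * b * al w ^ 2 * be w) * deriv al w
        + (4 * be w * (be w ^ 2 - a * al w ^ 2) - 8 * b * al w ^ 3) * deriv be w) w := by
    have h : (fun z => be (4 * z)) = fun z => F2 a b (al z) (be z) := funext h2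
    rw [h]
    have h5 := (((B.pow 2).sub ((A.pow 2).const_mul a)).pow 2).sub
        (((A.pow 3).const_mul (8 * b)).mul B)
    refine h5.congr_deriv ?_
    simp
    ring
  have u1 := e1.unique e3
  have u2 := e2.unique e4
  have g1 : 16 * (deriv al (4 * w) * be (4 * w) - al (4 * w) * deriv be (4 * w))
      = 4 * ((deriv al (4 * w) * 4) * be (4 * w) - al (4 * w) * (deriv be (4 * w) * 4)) := by ring
  rw [g1, u1, u2, h1 w, h2 w]
  simp only [F1, F2, qf, Jf]
  ring

/-- the basic differential equation -/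
theorem deq {al be : ℂ → ℂ} (a b : ℂ) (ha : Differentiable ℂ al) (hb : Differentiable ℂ be)
    (ha0 : al 0 = 0) (hb0 : be 0 = 1) (ha1 : deriv al 0 = 1)
    (h1 : ∀ w, al (4 * w) = F1 a b (al w) (be w)) (h2 : ∀ w, be (4 * w) = F2 a b (al w) (be w))
    (w : ℂ) :
    w * (deriv al w * be w - al w * deriv be w) ^ 2 = qf a b (al w) (be w) := by
  have hda : Differentiable ℂ (deriv al) := by
    have := (ha.differentiableOn (s := Set.univ)).deriv isOpen_univ
    exact fun x => (this x (Set.mem_univ x)).differentiableAt Filter.univ_mem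
  have hdb : Differentiable ℂ (deriv be) := by
    have := (hb.differentiableOn (s := Set.univ)).deriv isOpen_univ
    exact fun x => (this x (Set.mem_univ x)).differentiableAt Filter.univ_mem
  obtain ⟨W, hW⟩ : ∃ W : ℂ → ℂ, W = fun w => deriv al w * be w - al w * deriv be w := ⟨_, rfl⟩
  obtain ⟨H, hH⟩ : ∃ H : ℂ → ℂ, H = fun w => w * W w ^ 2 - qf a b (al w) (be w) := ⟨_, rfl⟩
  have hWd : Differentiable ℂ W := by
    rw [hW]
    exact (hda.mul hb).sub (ha.mul hdb)
  have hqd : Differentiable ℂ fun w => qf a b (al w) (be w) := by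
    unfold qf
    fun_prop
  have hHd : Differentiable ℂ H := by
    rw [hH]
    fun_prop
  have hW0 : W 0 = 1 := by
    rw [hW]
    simp [ha0, hb0, ha1]
  have hH0 : H 0 = 0 := by
    rw [hH]
    simp [ha0, qf]
  have hH1 : deriv H 0 = 0 := by
    have A := (ha 0).hasDerivAt
    have B := (hb 0).hasDerivAt
    have C := (hWd 0).hasDerivAt
    have h5 := ((hasDerivAt_id (0 : ℂ)).mul (C.pow 2)).sub
      (((A.mul (B.pow 3)).add (((A.pow 3).const_mul a).mul B)).add ((A.pow 4).const_mul b))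
    have h6 : HasDerivAt H 0 0 := by
      rw [hH]
      refine h5.congr_deriv ?_
      simp [ha0, hb0, ha1, hW0]
    exact h6.deriv
  have hHe : ∀ z, H (4 * z) = (Jf a b (al z) (be z)) ^ 2 / 64 * H z := by
    intro z
    have k1 := wron a b ha hb h1 h2 z
    have k2 := qf_F a b (al z) (be z)
    rw [← h1 z, ← h2 z] at k2
    have k3 : 16 * W (4 * z) = Jf a b (al z) (be z) * W z := by
      rw [hW]
      exact k1
    have k4 : 256 * (4 * z * W (4 * z) ^ 2) = 4 * z * (Jf a b (al z) (be z) * W z) ^ 2 := by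
      rw [← k3]
      ring
    have k5 : 256 * H (4 * z) = 256 * ((Jf a b (al z) (be z)) ^ 2 / 64 * H z) := by
      rw [hH]
      dsimp only
      rw [mul_sub, k4]
      linear_combination (-4) * k2
    exact mul_left_cancel₀ (by norm_num) k5
  -- the second order zero
  obtain ⟨C, hC0, hC⟩ : ∃ C : ℝ, 0 ≤ C ∧ ∀ᶠ z in 𝓝 (0 : ℂ), ‖H z‖ ≤ C * ‖z‖ ^ 2 := by
    have g1 : DifferentiableOn ℂ (dslope H 0) Set.univ :=
      (Complex.differentiableOn_dslope (c := 0) Filter.univ_mem).2 hHd.differentiableOn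
    have g2 : DifferentiableOn ℂ (dslope (dslope H 0) 0) Set.univ :=
      (Complex.differentiableOn_dslope (c := 0) Filter.univ_mem).2 g1
    have g3 : ContinuousAt (dslope (dslope H 0) 0) 0 :=
      ((g2 0 (Set.mem_univ 0)).differentiableAt Filter.univ_mem).continuousAt
    have g4 : ∀ᶠ z in 𝓝 (0 : ℂ), ‖dslope (dslope H 0) 0 z‖ < ‖dslope (dslope H 0) 0 0‖ + 1 :=
      g3.norm.eventually_lt continuousAt_const (lt_add_one _)
    refine ⟨‖dslope (dslope H 0) 0 0‖ + 1, by positivity, ?_⟩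
    filter_upwards [g4] with z hz
    have g5 : H z = z * (z * dslope (dslope H 0) 0 z) := by
      have g6 := sub_smul_dslope H 0 z
      have g7 := sub_smul_dslope (dslope H 0) 0 z
      have g8 : dslope H 0 0 = 0 := by
        rw [dslope_same]
        exact hH1
      rw [g8] at g7
      rw [hH0] at g6
      simp only [sub_zero, smul_eq_mul] at g6 g7
      rw [g7, g6]
    rw [g5, norm_mul, norm_mul]
    have g9 : ‖z‖ * (‖z‖ * ‖dslope (dslope H 0) 0 z‖)
        = ‖dslope (dslope H 0) 0 z‖ * ‖z‖ ^ 2 := by ring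
    rw [g9]
    gcongr
  have hm : ∀ᶠ z in 𝓝 (0 : ℂ), ‖(Jf a b (al z) (be z)) ^ 2 / 64‖ ≤ 8 := by
    have g1 : ContinuousAt (fun z => (Jf a b (al z) (be z)) ^ 2 / 64) 0 := by
      have ha' := ha.continuous
      have hb' := hb.continuous
      have : Continuous (fun z => (Jf a b (al z) (be z)) ^ 2 / 64) := by
        unfold Jf
        fun_prop
      exact this.continuousAt
    have g2 : ‖(Jf a b (al 0) (be 0)) ^ 2 / 64‖ < 8 := by
      rw [ha0, hb0]
      simp only [Jf]
      norm_num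
    exact (g1.norm.eventually_lt continuousAt_const g2).mono fun z hz => hz.le
  obtain ⟨ρ, hρ, hball⟩ := Metric.eventually_nhds_iff.1 (hC.and hm)
  have hsmall : ∀ z : ℂ, ‖z‖ < ρ → ∀ n : ℕ, ‖H z‖ ≤ 8 ^ n * ‖H (z / 4 ^ n)‖ := by
    intro z hz n
    induction n with
    | zero => simp
    | succ n ih =>
      have h3 : z / 4 ^ n = 4 * (z / 4 ^ (n + 1)) := by
        rw [pow_succ]
        field_simp
      have h4 : ‖z / 4 ^ (n + 1)‖ < ρ := by
        rw [norm_div, norm_pow]
        refine lt_of_le_of_lt (div_le_self (norm_nonneg z) ?_) hz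
        refine one_le_pow₀ ?_
        norm_num
      have h5 := (hball (y := z / 4 ^ (n + 1)) (by simpa using h4)).2
      rw [h3, hHe, norm_mul] at ih
      refine ih.trans ?_
      rw [pow_succ (8 : ℝ) n, mul_assoc]
      gcongr
  have hzero : ∀ z : ℂ, ‖z‖ < ρ → H z = 0 := by
    intro z hz
    have h3 : ∀ n : ℕ, ‖H z‖ ≤ (C * ‖z‖ ^ 2) * (1 / 2 : ℝ) ^ n := by
      intro n
      have h4 : ‖z / 4 ^ n‖ < ρ := by
        rw [norm_div, norm_pow]
        refine lt_of_le_of_lt (div_le_self (norm_nonneg z) ?_) hz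
        refine one_le_pow₀ ?_
        norm_num
      have h5 := (hball (y := z / 4 ^ n) (by simpa using h4)).1
      have h6 := hsmall z hz n
      refine h6.trans ((mul_le_mul_of_nonneg_left h5 (by positivity)).trans (le_of_eq ?_))
      rw [norm_div, norm_pow, div_pow]
      have h7 : ‖(4 : ℂ)‖ = 4 := by norm_num
      rw [h7]
      have h8 : ((4 : ℝ) ^ n) ^ 2 = 8 ^ n * 2 ^ n := by
        rw [← mul_pow, ← pow_mul, mul_comm n 2, pow_mul]
        norm_num
      rw [h8, one_div, inv_pow]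
      field_simp
    have h4 : Tendsto (fun n : ℕ => (C * ‖z‖ ^ 2) * (1 / 2 : ℝ) ^ n) atTop (𝓝 0) := by
      have := (tendsto_pow_atTop_nhds_zero_of_lt_one (r := (1 / 2 : ℝ)) (by norm_num)
        (by norm_num)).const_mul (C * ‖z‖ ^ 2)
      simpa using this
    have h5 : ‖H z‖ ≤ 0 := ge_of_tendsto' h4 h3
    simpa using h5
  have hall : ∀ n : ℕ, ∀ z : ℂ, ‖z‖ < 4 ^ n * ρ → H z = 0 := by
    intro n
    induction n with
    | zero =>
      intro z hz
      exact hzero z (by simpa using hz)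
    | succ n ih =>
      intro z hz
      have h3 : z = 4 * (z / 4) := by ring
      have h4 : ‖z / 4‖ < 4 ^ n * ρ := by
        rw [norm_div]
        have h7 : ‖(4 : ℂ)‖ = 4 := by norm_num
        rw [h7, div_lt_iff₀ (by norm_num)]
        calc ‖z‖ < 4 ^ (n + 1) * ρ := hz
          _ = 4 ^ n * ρ * 4 := by ring
      rw [h3, hHe, ih _ h4, mul_zero]
  have hfin : H w = 0 := by
    obtain ⟨n, hn⟩ := pow_unbounded_of_one_lt (‖w‖ / ρ) (by norm_num : (1 : ℝ) < 4)
    refine hall n w ?_
    rwa [div_lt_iff₀ hρ] at hn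
  rw [hH, hW] at hfin
  exact sub_eq_zero.1 hfin

/-- **The uniformization of a cubic in Weierstrass form by entire functions.** -/
theorem wei0 (a b : ℂ) : ∃ X Y Z : ℂ → ℂ,
    Differentiable ℂ X ∧ Differentiable ℂ Y ∧ Differentiable ℂ Z ∧
    (∀ t, Y t ^ 2 * Z t = X t ^ 3 + a * X t * Z t ^ 2 + b * Z t ^ 3) ∧
    ∃ s t, X s * Z t ≠ X t * Z s := by
  obtain ⟨al, be, ha, hb, ha0, hb0, ha1, -, h1, h2⟩ := poincare a b
  have hda : Differentiable ℂ (deriv al) := by
    have := (ha.differentiableOn (s := Set.univ)).deriv isOpen_univ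
    exact fun x => (this x (Set.mem_univ x)).differentiableAt Filter.univ_mem
  have hdb : Differentiable ℂ (deriv be) := by
    have := (hb.differentiableOn (s := Set.univ)).deriv isOpen_univ
    exact fun x => (this x (Set.mem_univ x)).differentiableAt Filter.univ_mem
  have hsq : Differentiable ℂ fun z : ℂ => z ^ 2 := by fun_prop
  refine ⟨fun z => be (z ^ 2) * al (z ^ 2),
    fun z => z * (deriv al (z ^ 2) * be (z ^ 2) - al (z ^ 2) * deriv be (z ^ 2)),
    fun z => al (z ^ 2) ^ 2, (hb.comp hsq).mul (ha.comp hsq),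
    differentiable_id.mul (((hda.comp hsq).mul (hb.comp hsq)).sub
      ((ha.comp hsq).mul (hdb.comp hsq))), (ha.comp hsq).pow 2, ?_, ?_⟩
  · intro z
    have h3 := deq a b ha hb ha0 hb0 ha1 h1 h2 (z ^ 2)
    simp only [qf] at h3
    linear_combination (al (z ^ 2)) ^ 2 * h3
  · have hne : ∀ᶠ w in 𝓝[≠] (0 : ℂ), al w ≠ 0 := by
      have := (ha 0).hasDerivAt
      rw [ha1] at this
      exact this.eventually_ne one_ne_zero
    obtain ⟨w2, hw2⟩ := hne.exists
    have h3 : ∀ᶠ w in 𝓝[≠] (0 : ℂ), be w * al w2 - be w2 * al w ≠ 0 := by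
      have h4 : ContinuousAt (fun w => be w * al w2 - be w2 * al w) 0 :=
        ((hb.continuous.mul continuous_const).sub
          (continuous_const.mul ha.continuous)).continuousAt
      have h5 : be 0 * al w2 - be w2 * al 0 ≠ 0 := by
        rw [ha0, hb0]
        simpa using hw2
      exact (h4.eventually_ne h5).filter_mono nhdsWithin_le_nhds
    obtain ⟨w1, hw1, hw1'⟩ := (hne.and h3).exists
    obtain ⟨s, hs⟩ := IsAlgClosed.exists_pow_nat_eq w1 (n := 2) (by norm_num)
    obtain ⟨t, ht⟩ := IsAlgClosed.exists_pow_nat_eq w2 (n := 2) (by norm_num)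
    refine ⟨s, t, ?_⟩
    dsimp only
    rw [hs, ht]
    intro h6
    have h7 : al w1 * al w2 * (be w1 * al w2 - be w2 * al w1) = 0 := by
      linear_combination h6
    exact mul_ne_zero (mul_ne_zero hw1 hw2) hw1' h7

end Pool.Agent.Q95.SF
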